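import Pool.Agent.H11.Eci1

open H11.Eci Equiv

theorem Pool.Agent.Results.MP_acd7ab_co.Counter.result :
    ∃ F : Finset (Perm (Fin 7)), ECI F ∧ F.card = 17 ∧
      ∀ (S : Sylow 2 (Perm (Fin 7))) (σ π : Perm (Fin 7)),
        ((fun g => σ * g * π) '' (S : Set (Perm (Fin 7)))).ncard < F.card := by
  refine ⟨F0, F0_eci, F0_card, fun S σ π => ?_⟩
  rw [Set.ncard_image_of_injective _ (fun a b h => by simpa using h), F0_card]
  have := sylow_card S
  rw [← Nat.card_coe_set_eq]
  exact lt_of_eq_of_lt this (by norm_num)
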